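import Pool.Agent.W930.FG.Pot

/-!
# Frog model: block sums of the potential
-/

set_option autoImplicit false

namespace Pool.Agent.W930.FG

open MeasureTheory ProbabilityTheory Filter FrogGW
open scoped ENNReal NNReal Classical

/-- the part of the block below `u` within `m` levels -/
noncomputable def blk (lam γ : ℝ) (N : ℕ) (Z : Env) : ℕ → List ℕ → Finset (List ℕ)
  | 0, _ => ∅
  | m + 1, u => insert u ((Finset.range (Z u)).biUnion fun i =>
      if trig lam γ N Z (i :: u) then ∅ else blk lam γ N Z m (i :: u))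

theorem sum_biUnion_le {ι α : Type*} [DecidableEq α] (s : Finset ι) (t : ι → Finset α)
    (f : α → ℝ) (hf : ∀ x, 0 ≤ f x) :
    ∑ x ∈ s.biUnion t, f x ≤ ∑ i ∈ s, ∑ x ∈ t i, f x := by
  induction s using Finset.induction_on with
  | empty => simp
  | insert a s ha ih =>
    rw [Finset.biUnion_insert, Finset.sum_insert ha]
    have h1 := Finset.sum_union_inter (s₁ := t a) (s₂ := s.biUnion t) (f := f)
    have h2 : 0 ≤ ∑ x ∈ t a ∩ s.biUnion t, f x := Finset.sum_nonneg fun _ _ => hf _
    linarith

theorem sum_insert_le {α : Type*} [DecidableEq α] (a : α) (s : Finset α) (f : α → ℝ) (hf : ∀ x, 0 ≤ f x) :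
    ∑ x ∈ insert a s, f x ≤ f a + ∑ x ∈ s, f x := by
  by_cases h : a ∈ s
  · rw [Finset.insert_eq_of_mem h]
    linarith [hf a]
  · rw [Finset.sum_insert h]

section

variable {lam γ : ℝ} (hl : 0 < lam) (hγ : 0 < γ) (hγ1 : γ ≤ 1) (hTA : TaskTA) (N : ℕ) (Z : Env)

include hl hγ hγ1 hTA in
theorem ta_fst (u : List ℕ) (i : ℕ) (h1 : (i :: u).length < N)
    (ht : ¬ trig lam γ N Z (i :: u)) :
    (TA lam γ (N - 1 - u.length) (sub (i :: u) Z)).1 * pot lam γ N Z u =
      AA lam γ N Z (i :: u) * pot lam γ N Z (i :: u) := by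
  obtain ⟨m, hm⟩ : ∃ m, N - 1 - u.length = m + 1 :=
    ⟨N - 1 - u.length - 1, by simp at h1; omega⟩
  have h2 : N - 1 - (i :: u).length = m := by simp; omega
  have hA : AA lam γ N Z (i :: u) = lam + ∑ j ∈ Finset.range ((sub (i :: u) Z) []),
      (TA lam γ m (sh j (sub (i :: u) Z))).1 := by
    unfold AA
    rw [h2]
    simp only [sh_sub]
    rfl
  have hT : TH lam γ N Z (i :: u) = ∑ j ∈ Finset.range ((sub (i :: u) Z) []),
      (TA lam γ m (sh j (sub (i :: u) Z))).2 := by
    unfold TH
    rw [h2]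
    simp only [sh_sub]
    rfl
  have hT0 := TH_nonneg hl hγ hγ1 hTA N Z (i :: u)
  have hT1 : 1 + TH lam γ N Z (i :: u) ≠ 0 := by linarith
  have h3 : ¬ AA lam γ N Z (i :: u) ≤ γ * TH lam γ N Z (i :: u) :=
    fun h => ht ⟨by simp, h1, h⟩
  rw [hm, TA, ← hA, ← hT, if_neg h3, pot]
  simp only
  field_simp

include hl hγ hγ1 hTA in
theorem child_le (u : List ℕ) (i m : ℕ) (hm : N - (i :: u).length = m)
    (ih : (i :: u).length < N → lam * ∑ y ∈ blk lam γ N Z m (i :: u), pot lam γ N Z y ≤
      AA lam γ N Z (i :: u) * pot lam γ N Z (i :: u)) :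
    lam * ∑ y ∈ (if trig lam γ N Z (i :: u) then ∅ else blk lam γ N Z m (i :: u)),
      pot lam γ N Z y ≤
      (TA lam γ (N - 1 - u.length) (sub (i :: u) Z)).1 * pot lam γ N Z u := by
  have h0 : 0 ≤ (TA lam γ (N - 1 - u.length) (sub (i :: u) Z)).1 * pot lam γ N Z u :=
    mul_nonneg (hTA lam γ hl hγ hγ1 _ _).1 (pot_nonneg hl hγ hγ1 hTA N Z u)
  split_ifs with ht
  · simpa using h0
  · rcases Nat.lt_or_ge (i :: u).length N with h1 | h1
    · rw [ta_fst hl hγ hγ1 hTA N Z u i h1 ht]
      exact ih h1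
    · have h2 : m = 0 := by omega
      rw [h2, blk]
      simpa using h0

include hl hγ hγ1 hTA in
theorem blk_le (m : ℕ) : ∀ u : List ℕ, N - u.length = m →
    lam * ∑ y ∈ blk lam γ N Z m u, pot lam γ N Z y ≤ AA lam γ N Z u * pot lam γ N Z u := by
  induction m with
  | zero =>
    intro u _
    rw [blk]
    simpa using mul_nonneg (AA_nonneg hl hγ hγ1 hTA N Z u) (pot_nonneg hl hγ hγ1 hTA N Z u)
  | succ m ih =>
    intro u hu
    rw [blk]
    have hp := pot_nonneg hl hγ hγ1 hTA N Z
    have h1 := sum_insert_le u ((Finset.range (Z u)).biUnion fun i =>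
      if trig lam γ N Z (i :: u) then ∅ else blk lam γ N Z m (i :: u)) _ hp
    have h2 := sum_biUnion_le (Finset.range (Z u)) (fun i =>
      if trig lam γ N Z (i :: u) then ∅ else blk lam γ N Z m (i :: u)) _ hp
    have h3 : ∑ i ∈ Finset.range (Z u), lam *
        ∑ y ∈ (if trig lam γ N Z (i :: u) then ∅ else blk lam γ N Z m (i :: u)),
          pot lam γ N Z y ≤
        ∑ i ∈ Finset.range (Z u),
          (TA lam γ (N - 1 - u.length) (sub (i :: u) Z)).1 * pot lam γ N Z u :=
      Finset.sum_le_sum fun i _ => child_le hl hγ hγ1 hTA N Z u i m (by simp; omega)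
        fun _ => ih (i :: u) (by simp; omega)
    rw [← Finset.mul_sum, ← Finset.sum_mul] at h3
    have h4 : AA lam γ N Z u * pot lam γ N Z u = lam * pot lam γ N Z u +
        (∑ i ∈ Finset.range (Z u), (TA lam γ (N - 1 - u.length) (sub (i :: u) Z)).1) *
          pot lam γ N Z u := by
      unfold AA
      ring
    rw [h4]
    have h5 := mul_le_mul_of_nonneg_left (h1.trans (add_le_add_right h2 _)) hl.le
    rw [mul_add] at h5
    linarith

end

section

variable (lam γ : ℝ) (N : ℕ) (Z : Env)

theorem inTree_of_append (v u : List ℕ) (h : InTree Z (v ++ u)) : InTree Z u := by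
  induction v with
  | nil => exact h
  | cons i v ih => exact ih h.1

theorem mem_blk (v : List ℕ) : ∀ u : List ℕ, InTree Z (v ++ u) → (v ++ u).length < N →
    (∀ w, trig lam γ N Z w → u <:+ w → w <:+ v ++ u → w = u) →
    v ++ u ∈ blk lam γ N Z (N - u.length) u := by
  induction v using List.reverseRecOn with
  | nil =>
    intro u _ hlen _
    obtain ⟨m, hm⟩ : ∃ m, N - u.length = m + 1 := ⟨N - u.length - 1, by simp at hlen; omega⟩
    rw [hm, blk]
    exact Finset.mem_insert_self _ _
  | append_singleton v i ih =>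
    intro u ht hlen hw
    have e : v ++ [i] ++ u = v ++ (i :: u) := by simp
    rw [e] at ht hlen hw ⊢
    have hlen' := hlen
    simp only [List.length_append, List.length_cons] at hlen'
    obtain ⟨m, hm⟩ : ∃ m, N - u.length = m + 1 := ⟨N - u.length - 1, by omega⟩
    rw [hm, blk]
    refine Finset.mem_insert_of_mem (Finset.mem_biUnion.2 ⟨i, ?_, ?_⟩)
    · exact Finset.mem_range.2 (inTree_of_append Z v (i :: u) ht).2
    · have h1 : ¬ trig lam γ N Z (i :: u) := by
        intro h
        have h2 := hw _ h (List.suffix_cons i u) (List.suffix_append v (i :: u))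
        have h3 := congrArg List.length h2
        simp at h3
      rw [if_neg h1]
      have h4 := ih (i :: u) ht hlen (fun w hw1 hw2 hw3 => by
        have h5 := hw w hw1 ((List.suffix_cons i u).trans hw2) hw3
        have h6 := hw2.length_le
        rw [h5] at h6
        simp at h6)
      have h7 : N - (i :: u).length = m := by simp; omega
      rw [h7] at h4
      exact h4

theorem tv_suffix (y : List ℕ) : tv lam γ N Z y <:+ y := by
  induction y with
  | nil => rw [tv]
  | cons i u ih =>
    rw [tv]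
    split_ifs
    · exact List.suffix_rfl
    · exact ih.trans (List.suffix_cons i u)

theorem suffix_tv (y : List ℕ) : ∀ w, trig lam γ N Z w → w <:+ y → w <:+ tv lam γ N Z y := by
  induction y with
  | nil =>
    intro w _ hw
    rw [tv]
    exact hw
  | cons i u ih =>
    intro w hw hwy
    rw [tv]
    split_ifs with h
    · exact hwy
    · rcases List.suffix_cons_iff.1 hwy with h1 | h1
      · exact absurd (h1 ▸ hw) h
      · exact ih w hw h1

theorem mem_blk_tv (y : List ℕ) (ht : InTree Z y) (hlen : y.length < N) :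
    y ∈ blk lam γ N Z (N - (tv lam γ N Z y).length) (tv lam γ N Z y) := by
  obtain ⟨v, hv⟩ := tv_suffix lam γ N Z y
  have h1 := mem_blk lam γ N Z v (tv lam γ N Z y) (by rw [hv]; exact ht) (by rw [hv]; exact hlen)
    (fun w hw h2 h3 => by
      rw [hv] at h3
      have h4 := suffix_tv lam γ N Z y w hw h3
      exact h4.eq_of_length (le_antisymm h4.length_le h2.length_le))
  rw [hv] at h1
  exact h1

theorem mem_lev {n : ℕ} : ∀ {y : List ℕ}, y ∈ lev Z n → InTree Z y ∧ y.length = n := by
  induction n with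
  | zero =>
    intro y hy
    rw [lev, Finset.mem_singleton] at hy
    subst hy
    exact ⟨trivial, rfl⟩
  | succ n ih =>
    intro y hy
    rw [lev, Finset.mem_biUnion] at hy
    obtain ⟨u, hu, hy⟩ := hy
    rw [Finset.mem_image] at hy
    obtain ⟨i, hi, rfl⟩ := hy
    obtain ⟨h1, h2⟩ := ih hu
    exact ⟨⟨h1, Finset.mem_range.1 hi⟩, by simp [h2]⟩

theorem mem_vert {y : List ℕ} (hy : y ∈ vert Z N) : InTree Z y ∧ y.length < N := by
  unfold vert at hy
  rw [Finset.mem_biUnion] at hy
  obtain ⟨n, hn, hy⟩ := hy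
  obtain ⟨h1, h2⟩ := mem_lev Z hy
  exact ⟨h1, by rw [h2]; exact Finset.mem_range.1 hn⟩

end

theorem taskBlk (hTA : TaskTA) : TaskBlk := by
  intro lam γ hl hγ hγ1 Z N _
  have hp := pot_nonneg hl hγ hγ1 hTA N Z
  have hlp : ∀ y, 0 ≤ lam * pot lam γ N Z y := fun y => mul_nonneg hl.le (hp y)
  refine ⟨fun t ht => ?_, ?_⟩
  · have h1 : (vert Z N).filter (fun y => tv lam γ N Z y = t) ⊆
        blk lam γ N Z (N - t.length) t := by
      intro y hy
      rw [Finset.mem_filter] at hy
      obtain ⟨hy1, rfl⟩ := hy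
      obtain ⟨h2, h3⟩ := mem_vert N Z hy1
      exact mem_blk_tv lam γ N Z y h2 h3
    calc ∑ y ∈ (vert Z N).filter (fun y => tv lam γ N Z y = t), lam * pot lam γ N Z y
        ≤ ∑ y ∈ blk lam γ N Z (N - t.length) t, lam * pot lam γ N Z y :=
          Finset.sum_le_sum_of_subset_of_nonneg h1 fun y _ _ => hlp y
      _ = lam * ∑ y ∈ blk lam γ N Z (N - t.length) t, pot lam γ N Z y := by
          rw [Finset.mul_sum]
      _ ≤ AA lam γ N Z t * pot lam γ N Z t := blk_le hl hγ hγ1 hTA N Z _ t rfl
      _ = bet lam γ N Z t := by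
          unfold bet
          rw [if_pos ht]
  · set m := N - 1 with hm
    have h1 : (blockRoot lam γ N Z).filter (fun y => y ≠ []) ⊆
        (Finset.range (Z [])).biUnion fun i =>
          if trig lam γ N Z [i] then ∅ else blk lam γ N Z m [i] := by
      intro y hy
      unfold blockRoot at hy
      rw [Finset.mem_filter, Finset.mem_filter] at hy
      obtain ⟨⟨hy1, hy2⟩, hy3⟩ := hy
      obtain ⟨h2, h3⟩ := mem_vert N Z hy1
      have h4 := mem_blk_tv lam γ N Z y h2 h3
      rw [hy2] at h4
      have h5 : N - ([] : List ℕ).length = m + 1 := by simp; omega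
      rw [h5, blk] at h4
      rcases Finset.mem_insert.1 h4 with h6 | h6
      · exact absurd h6 hy3
      · exact h6
    have h2 := sum_biUnion_le (Finset.range (Z [])) (fun i =>
      if trig lam γ N Z [i] then ∅ else blk lam γ N Z m [i]) _ hlp
    have h3 : ∑ i ∈ Finset.range (Z []),
        ∑ y ∈ (if trig lam γ N Z [i] then ∅ else blk lam γ N Z m [i]),
          lam * pot lam γ N Z y ≤
        ∑ i ∈ Finset.range (Z []),
          (TA lam γ (N - 1 - ([] : List ℕ).length) (sub [i] Z)).1 * pot lam γ N Z [] := by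
      refine Finset.sum_le_sum fun i _ => ?_
      rw [← Finset.mul_sum]
      exact child_le hl hγ hγ1 hTA N Z [] i m (by simp; omega)
        fun _ => blk_le hl hγ hγ1 hTA N Z m [i] (by simp; omega)
    have h4 : (AA lam γ N Z [] - lam) * pot lam γ N Z [] =
        ∑ i ∈ Finset.range (Z []),
          (TA lam γ (N - 1 - ([] : List ℕ).length) (sub [i] Z)).1 * pot lam γ N Z [] := by
      rw [← Finset.sum_mul]
      unfold AA
      ring
    rw [h4]
    exact (Finset.sum_le_sum_of_subset_of_nonneg h1 fun y _ _ => hlp y).trans (h2.trans h3)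

end Pool.Agent.W930.FG
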