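import Pool.Agent.W852.FG.Stms

/-!
# Frog model: the potential is superharmonic
-/

set_option autoImplicit false

namespace Pool.Agent.W930.FG

open MeasureTheory ProbabilityTheory Filter FrogGW
open scoped ENNReal NNReal Classical

theorem taskTA : TaskTA := by
  intro lam γ hl hγ hγ1 n
  induction n with
  | zero => intro Z; simp [TA]
  | succ n ih =>
    intro Z
    have hA : 0 ≤ ∑ i ∈ Finset.range (Z []), (TA lam γ n (sh i Z)).1 :=
      Finset.sum_nonneg fun i _ => (ih _).1
    have hT : 0 ≤ ∑ i ∈ Finset.range (Z []), (TA lam γ n (sh i Z)).2 :=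
      Finset.sum_nonneg fun i _ => (ih _).2.1
    rw [TA]
    set A := ∑ i ∈ Finset.range (Z []), (TA lam γ n (sh i Z)).1
    set T := ∑ i ∈ Finset.range (Z []), (TA lam γ n (sh i Z)).2
    split_ifs with h
    · have h1 : γ * T ≤ T := by nlinarith
      refine ⟨le_rfl, ?_, ?_⟩
      · simp only
        apply div_nonneg <;> linarith
      · simp only
        rw [div_le_one (by linarith)]
        linarith
    · refine ⟨?_, ?_, ?_⟩
      · simp only
        apply div_nonneg <;> linarith
      · simp only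
        apply div_nonneg <;> linarith
      · simp only
        rw [div_le_one (by linarith)]
        linarith

section

variable {lam γ : ℝ} (hl : 0 < lam) (hγ : 0 < γ) (hγ1 : γ ≤ 1) (hTA : TaskTA) (N : ℕ) (Z : Env)

include hl hγ hγ1 hTA in
theorem TH_nonneg (u : List ℕ) : 0 ≤ TH lam γ N Z u :=
  Finset.sum_nonneg fun _ _ => (hTA lam γ hl hγ hγ1 _ _).2.1

include hl hγ hγ1 hTA in
theorem TH_le (u : List ℕ) : TH lam γ N Z u ≤ Z u := by
  unfold TH
  calc ∑ i ∈ Finset.range (Z u), (TA lam γ (N - 1 - u.length) (sub (i :: u) Z)).2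
      ≤ ∑ i ∈ Finset.range (Z u), (1 : ℝ) :=
        Finset.sum_le_sum fun _ _ => (hTA lam γ hl hγ hγ1 _ _).2.2
    _ = Z u := by simp

include hl hγ hγ1 hTA in
theorem AA_nonneg (u : List ℕ) : 0 ≤ AA lam γ N Z u := by
  unfold AA
  have : 0 ≤ ∑ i ∈ Finset.range (Z u), (TA lam γ (N - 1 - u.length) (sub (i :: u) Z)).1 :=
    Finset.sum_nonneg fun _ _ => (hTA lam γ hl hγ hγ1 _ _).1
  linarith

include hl hγ hγ1 hTA in
theorem pot_nonneg (u : List ℕ) : 0 ≤ pot lam γ N Z u := by
  induction u with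
  | nil =>
    rw [pot]
    exact div_nonneg (Nat.cast_nonneg _) (TH_nonneg hl hγ hγ1 hTA N Z [])
  | cons i u ih =>
    rw [pot]
    have := TH_nonneg hl hγ hγ1 hTA N Z (i :: u)
    exact div_nonneg ih (by linarith)

include hl hγ hγ1 hTA in
theorem bet_nonneg (u : List ℕ) : 0 ≤ bet lam γ N Z u := by
  unfold bet
  split_ifs
  · exact mul_nonneg (AA_nonneg hl hγ hγ1 hTA N Z u) (pot_nonneg hl hγ hγ1 hTA N Z u)
  · exact le_rfl

theorem sh_sub (j : ℕ) (c : List ℕ) : sh j (sub c Z) = sub (j :: c) Z := by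
  funext v
  simp [sh, sub]

include hl hγ hγ1 hTA in
/-- the key identity -/
theorem key (u : List ℕ) (hu : u.length < N) (i : ℕ) :
    bet lam γ N Z (i :: u) + (if (i :: u).length < N then pot lam γ N Z (i :: u) else 0) =
      (1 - (TA lam γ (N - 1 - u.length) (sub (i :: u) Z)).2) * pot lam γ N Z u := by
  rcases Nat.eq_zero_or_pos (N - 1 - u.length) with h0 | h0
  · have h1 : ¬ (i :: u).length < N := by simp; omega
    have h2 : ¬ trig lam γ N Z (i :: u) := fun h => h1 h.2.1
    rw [h0, if_neg h1, TA]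
    unfold bet
    rw [if_neg h2]
    simp
  · obtain ⟨m, hm⟩ : ∃ m, N - 1 - u.length = m + 1 := ⟨N - 1 - u.length - 1, by omega⟩
    have h1 : (i :: u).length < N := by simp; omega
    have h2 : N - 1 - (i :: u).length = m := by simp; omega
    have hA : AA lam γ N Z (i :: u) = lam + ∑ j ∈ Finset.range ((sub (i :: u) Z) []),
        (TA lam γ m (sh j (sub (i :: u) Z))).1 := by
      unfold AA
      rw [h2]
      simp only [sh_sub]
      rfl
    have hT : TH lam γ N Z (i :: u) = ∑ j ∈ Finset.range ((sub (i :: u) Z) []),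
        (TA lam γ m (sh j (sub (i :: u) Z))).2 := by
      unfold TH
      rw [h2]
      simp only [sh_sub]
      rfl
    have hT0 := TH_nonneg hl hγ hγ1 hTA N Z (i :: u)
    have hT1 : 1 + TH lam γ N Z (i :: u) ≠ 0 := by linarith
    rw [hm, if_pos h1, TA, ← hA, ← hT, pot]
    by_cases h3 : AA lam γ N Z (i :: u) ≤ γ * TH lam γ N Z (i :: u)
    · have h4 : trig lam γ N Z (i :: u) := ⟨by simp, h1, h3⟩
      unfold bet
      rw [if_pos h4, if_pos h3, pot]
      simp only
      field_simp
      ring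
    · have h4 : ¬ trig lam γ N Z (i :: u) := fun h => h3 h.2.2
      unfold bet
      rw [if_neg h4, if_neg h3]
      simp only
      field_simp
      ring

include hl hγ hγ1 hTA in
theorem sum_key (u : List ℕ) (hu : u.length < N) :
    ∑ i ∈ Finset.range (Z u), (cross (fun t => ENNReal.ofReal (bet lam γ N Z t)) u (i :: u) +
      (if (i :: u).length < N then ENNReal.ofReal (pot lam γ N Z (i :: u)) else 0)) =
    ENNReal.ofReal (((Z u : ℝ) - TH lam γ N Z u) * pot lam γ N Z u) := by
  have h1 : ∀ i ∈ Finset.range (Z u),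
      (cross (fun t => ENNReal.ofReal (bet lam γ N Z t)) u (i :: u) +
      (if (i :: u).length < N then ENNReal.ofReal (pot lam γ N Z (i :: u)) else 0)) =
      ENNReal.ofReal ((1 - (TA lam γ (N - 1 - u.length) (sub (i :: u) Z)).2) *
        pot lam γ N Z u) := by
    intro i _
    unfold cross
    rw [if_pos (by simp), ← key hl hγ hγ1 hTA N Z u hu i]
    have hb := bet_nonneg hl hγ hγ1 hTA N Z (i :: u)
    have hp := pot_nonneg hl hγ hγ1 hTA N Z (i :: u)
    split_ifs
    · rw [ENNReal.ofReal_add hb hp]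
    · rw [ENNReal.ofReal_add hb le_rfl, ENNReal.ofReal_zero]
  rw [Finset.sum_congr rfl h1, ← ENNReal.ofReal_sum_of_nonneg]
  · rw [← Finset.sum_mul, Finset.sum_sub_distrib]
    simp [TH]
  · intro i _
    exact mul_nonneg (by linarith [(hTA lam γ hl hγ hγ1 (N - 1 - u.length)
      (sub (i :: u) Z)).2.2]) (pot_nonneg hl hγ hγ1 hTA N Z u)

end

theorem taskPot (hTA : TaskTA) (hStep : TaskStep) : TaskPot := by
  intro lam γ hl hγ hγ1 Z N hTH x hx
  have hF := hStep Z (fun y => cross (fun t => ENNReal.ofReal (bet lam γ N Z t)) x y +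
    (if y.length < N then ENNReal.ofReal (pot lam γ N Z y) else 0))
  have hTHle := TH_le hl hγ hγ1 hTA N Z x
  have hTH0 := TH_nonneg hl hγ hγ1 hTA N Z x
  have hp0 := pot_nonneg hl hγ hγ1 hTA N Z x
  cases x with
  | nil =>
    have hZ : 1 ≤ Z [] := by
      by_contra h
      have h0 : Z [] = 0 := by omega
      unfold TH at hTH
      rw [h0] at hTH
      simp at hTH
    rw [hF.1 hZ, if_pos rfl]
    have h1 := sum_key hl hγ hγ1 hTA N Z [] hx
    rw [h1]
    have hZ0 : (0 : ℝ) < Z [] := by exact_mod_cast hZ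
    have h2 : ((Z [] : ℕ) : ℝ≥0∞)⁻¹ = ENNReal.ofReal ((Z [] : ℝ)⁻¹) := by
      rw [ENNReal.ofReal_inv_of_pos hZ0, ENNReal.ofReal_natCast]
    rw [h2, ← ENNReal.ofReal_mul (by positivity), ← ENNReal.ofReal_one,
      ← ENNReal.ofReal_add zero_le_one]
    · apply le_of_eq
      congr 1
      rw [pot]
      field_simp
      ring
    · have : 0 ≤ ((Z [] : ℝ) - TH lam γ N Z []) * pot lam γ N Z [] :=
        mul_nonneg (by linarith) hp0
      positivity
  | cons i v =>
    rw [hF.2 i v, if_neg (by simp), zero_add]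
    have h1 := sum_key hl hγ hγ1 hTA N Z (i :: v) hx
    rw [h1]
    have h3 : ¬ (i :: v).length < v.length := by simp
    have h4 : v.length < N := by simp at hx; omega
    unfold cross
    rw [if_neg h3, if_pos h4, zero_add]
    have hpv := pot_nonneg hl hγ hγ1 hTA N Z v
    rw [← ENNReal.ofReal_add hpv (mul_nonneg (by linarith) hp0)]
    have h5 : pot lam γ N Z v + ((Z (i :: v) : ℝ) - TH lam γ N Z (i :: v)) *
        pot lam γ N Z (i :: v) = ((Z (i :: v) : ℝ) + 1) * pot lam γ N Z (i :: v) := by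
      have h6 : pot lam γ N Z (i :: v) = pot lam γ N Z v / (1 + TH lam γ N Z (i :: v)) := by
        rw [pot]
      have h7 : pot lam γ N Z v = (1 + TH lam γ N Z (i :: v)) * pot lam γ N Z (i :: v) := by
        rw [h6]
        field_simp
      rw [h7]
      ring
    rw [h5]
    have h8 : ((Z (i :: v) : ℕ) : ℝ≥0∞) + 1 = ENNReal.ofReal ((Z (i :: v) : ℝ) + 1) := by
      rw [ENNReal.ofReal_add (Nat.cast_nonneg _) zero_le_one, ENNReal.ofReal_natCast,
        ENNReal.ofReal_one]
    have h9 : (0 : ℝ) < (Z (i :: v) : ℝ) + 1 := by positivity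
    rw [h8, ← ENNReal.ofReal_inv_of_pos h9, ← ENNReal.ofReal_mul (by positivity),
      ← mul_assoc, inv_mul_cancel₀ h9.ne', one_mul]

end Pool.Agent.W930.FG
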