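import Pool.Agent.W852.FG.Stms

/-!
# Frog model: pathwise comparison of visits with the score
-/

set_option autoImplicit false

namespace Pool.Agent.W930.FG

open MeasureTheory ProbabilityTheory Filter FrogGW
open scoped ENNReal NNReal Classical

theorem step_cases (Z : Env) (x : List ℕ) (s : ℝ) :
    (∃ i, step Z x s = i :: x) ∨ ∃ i, x = i :: step Z x s := by
  cases x with
  | nil => exact Or.inl ⟨_, rfl⟩
  | cons i v =>
    rw [step]
    split_ifs
    · exact Or.inl ⟨_, rfl⟩
    · exact Or.inr ⟨i, rfl⟩

theorem hit_length (Z : Env) (N m : ℕ) (x y : List ℕ) (u : ℕ → ℝ) (h : Hit Z N m x u y) :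
    x.length < N := by
  cases m with
  | zero => exact h.1
  | succ m => exact h.1

theorem taskScore : TaskScore := by
  intro Z N β S m
  induction m with
  | zero =>
    intro x u hx
    have h1 : ∑ t ∈ S.filter (fun t => ¬ (t <:+ x)), (if Hit Z N 0 x u t then β t else 0) = 0 := by
      refine Finset.sum_eq_zero fun t ht => ?_
      rw [Finset.mem_filter] at ht
      rw [if_neg]
      rintro ⟨-, rfl⟩
      exact ht.2 List.suffix_rfl
    rw [h1, add_zero, score]
    have h2 : (if Hit Z N 0 x u [] then (1 : ℝ≥0∞) else 0) ≤ if x = [] then 1 else 0 := by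
      split_ifs with h3 h4 h4
      · exact le_rfl
      · exact absurd h3.2 h4
      · exact zero_le_one
      · exact le_rfl
    exact h2.trans (le_add_right (le_add_right le_rfl))
  | succ m ih =>
    intro x u hx
    rw [score]
    set y := step Z x (u 0) with hy
    have hne : ∀ t, ¬ t <:+ x → (Hit Z N (m + 1) x u t ↔ Hit Z N m y (fun k => u (k + 1)) t) := by
      intro t ht
      constructor
      · rintro ⟨-, rfl | h⟩
        · exact absurd List.suffix_rfl ht
        · exact h
      · intro h
        exact ⟨hx, Or.inr h⟩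
    have h0 : (if Hit Z N (m + 1) x u [] then (1 : ℝ≥0∞) else 0) ≤
        (if x = [] then 1 else 0) + (if Hit Z N m y (fun k => u (k + 1)) [] then 1 else 0) := by
      by_cases h : Hit Z N (m + 1) x u []
      · rw [if_pos h]
        rcases h.2 with h1 | h1
        · rw [if_pos h1]
          exact le_add_right le_rfl
        · have h2 : Hit Z N m y (fun k => u (k + 1)) [] := h1
          rw [if_pos h2]
          exact le_add_left le_rfl
      · rw [if_neg h]
        exact bot_le
    have hsum : ∑ t ∈ S.filter (fun t => ¬ (t <:+ x)),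
        (if Hit Z N (m + 1) x u t then β t else 0) ≤ cross β x y +
        ∑ t ∈ S.filter (fun t => ¬ (t <:+ y)),
          (if Hit Z N m y (fun k => u (k + 1)) t then β t else 0) := by
      rw [Finset.sum_filter, Finset.sum_filter]
      have h1 : ∀ t ∈ S, (if ¬ t <:+ x then (if Hit Z N (m + 1) x u t then β t else 0) else 0) ≤
          (if t = y then cross β x y else 0) +
          (if ¬ t <:+ y then (if Hit Z N m y (fun k => u (k + 1)) t then β t else 0) else 0) := by
        intro t _
        by_cases hx1 : t <:+ x
        · rw [if_neg (not_not.2 hx1)]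
          exact bot_le
        · rw [if_pos hx1]
          by_cases hy1 : t <:+ y
          · have h2 : t = y ∧ x.length < y.length := by
              rcases step_cases Z x (u 0) with ⟨i, hi⟩ | ⟨i, hi⟩
              · rw [← hy] at hi
                rw [hi] at hy1 ⊢
                rcases List.suffix_cons_iff.1 hy1 with h3 | h3
                · exact ⟨h3, by simp⟩
                · exact absurd h3 hx1
              · rw [← hy] at hi
                exfalso
                apply hx1
                rw [hi]
                exact hy1.trans (List.suffix_cons i y)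
            rw [if_pos h2.1]
            unfold cross
            rw [if_pos h2.2, h2.1]
            refine le_add_right ?_
            split_ifs
            · exact le_rfl
            · exact bot_le
          · rw [if_pos hy1]
            refine le_add_left ?_
            by_cases h3 : Hit Z N (m + 1) x u t
            · rw [if_pos h3, if_pos ((hne t hx1).1 h3)]
            · rw [if_neg h3]
              exact bot_le
      refine (Finset.sum_le_sum h1).trans ?_
      rw [Finset.sum_add_distrib]
      refine add_le_add ?_ le_rfl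
      rw [Finset.sum_ite_eq']
      split_ifs
      · exact le_rfl
      · exact bot_le
    by_cases hyN : y.length < N
    · rw [if_pos hyN]
      have h2 := ih y (fun k => u (k + 1)) hyN
      calc (if Hit Z N (m + 1) x u [] then (1 : ℝ≥0∞) else 0) +
            ∑ t ∈ S.filter (fun t => ¬ (t <:+ x)),
              (if Hit Z N (m + 1) x u t then β t else 0)
          ≤ ((if x = [] then 1 else 0) +
              (if Hit Z N m y (fun k => u (k + 1)) [] then 1 else 0)) +
            (cross β x y + ∑ t ∈ S.filter (fun t => ¬ (t <:+ y)),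
              (if Hit Z N m y (fun k => u (k + 1)) t then β t else 0)) := add_le_add h0 hsum
        _ = (if x = [] then 1 else 0) + cross β x y +
            ((if Hit Z N m y (fun k => u (k + 1)) [] then 1 else 0) +
              ∑ t ∈ S.filter (fun t => ¬ (t <:+ y)),
              (if Hit Z N m y (fun k => u (k + 1)) t then β t else 0)) := by
            ac_rfl
        _ ≤ _ := add_le_add le_rfl h2
    · rw [if_neg hyN, add_zero]
      have hno : ∀ t, ¬ Hit Z N m y (fun k => u (k + 1)) t :=
        fun t h => hyN (hit_length Z N m y t _ h)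
      have h3 : ∑ t ∈ S.filter (fun t => ¬ (t <:+ y)),
          (if Hit Z N m y (fun k => u (k + 1)) t then β t else 0) = 0 :=
        Finset.sum_eq_zero fun t _ => if_neg (hno t)
      rw [h3, add_zero] at hsum
      rw [if_neg (hno []), add_zero] at h0
      exact add_le_add h0 hsum

theorem unif_floor (d : ℕ) (hd : 1 ≤ d) (G : ℕ → ℝ≥0∞) :
    ∫⁻ x, G ⌊x * (d : ℝ)⌋₊ ∂unif = (d : ℝ≥0∞)⁻¹ * ∑ m ∈ Finset.range d, G m := by
  have hd0 : (0 : ℝ) < d := by exact_mod_cast hd
  unfold unif
  have h1 : ∫⁻ x in Set.Ico (0 : ℝ) 1, G ⌊x * (d : ℝ)⌋₊ =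
      ∫⁻ x in Set.Ico (0 : ℝ) 1, ∑ m ∈ Finset.range d,
        (Set.Ico ((m : ℝ) / d) (((m : ℝ) + 1) / d)).indicator (fun _ => G m) x := by
    refine setLIntegral_congr_fun measurableSet_Ico fun x hx => ?_
    have hx0 : 0 ≤ x * d := mul_nonneg hx.1 hd0.le
    have hlt : ⌊x * (d : ℝ)⌋₊ < d := by
      rw [Nat.floor_lt hx0]
      nlinarith [hx.2]
    rw [Finset.sum_eq_single ⌊x * (d : ℝ)⌋₊]
    · rw [Set.indicator_of_mem]
      rw [Set.mem_Ico, div_le_iff₀ hd0, lt_div_iff₀ hd0]
      exact ⟨Nat.floor_le hx0, Nat.lt_floor_add_one _⟩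
    · intro m _ hm
      rw [Set.indicator_of_notMem]
      intro h
      rw [Set.mem_Ico, div_le_iff₀ hd0, lt_div_iff₀ hd0] at h
      exact hm ((Nat.floor_eq_iff hx0).2 h).symm
    · intro h
      exact absurd (Finset.mem_range.2 hlt) h
  rw [h1, lintegral_finsetSum _ fun m _ => measurable_const.indicator measurableSet_Ico,
    Finset.mul_sum]
  refine Finset.sum_congr rfl fun m hm => ?_
  rw [Finset.mem_range] at hm
  have hm1 : (m : ℝ) + 1 ≤ d := by exact_mod_cast hm
  rw [lintegral_indicator_const measurableSet_Ico, Measure.restrict_apply measurableSet_Ico,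
    Set.inter_eq_left.2, Real.volume_Ico]
  · rw [mul_comm]
    congr 1
    have h2 : ((m : ℝ) + 1) / d - (m : ℝ) / d = (d : ℝ)⁻¹ := by
      field_simp
      ring
    rw [h2, ENNReal.ofReal_inv_of_pos hd0, ENNReal.ofReal_natCast]
  · intro x hx
    refine ⟨le_trans (by positivity) hx.1, lt_of_lt_of_le hx.2 ?_⟩
    rw [div_le_one hd0]
    exact hm1

theorem taskStep : TaskStep := by
  intro Z F
  refine ⟨fun hZ => ?_, fun i v => ?_⟩
  · have h1 := unif_floor (Z []) hZ (fun m => F [min m (Z [] - 1)])
    rw [show (∫⁻ x, F (step Z [] x) ∂unif) =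
      ∫⁻ x, F [min ⌊x * (Z [] : ℝ)⌋₊ (Z [] - 1)] ∂unif from rfl]
    rw [h1]
    congr 1
    refine Finset.sum_congr rfl fun m hm => ?_
    rw [Finset.mem_range] at hm
    rw [min_eq_left (by omega)]
  · have h1 := unif_floor (Z (i :: v) + 1) (by omega)
      (fun m => F (if m < Z (i :: v) then m :: i :: v else v))
    push_cast at h1
    have h2 : (∫⁻ x, F (step Z (i :: v) x) ∂unif) =
      ∫⁻ x, F (if ⌊x * ((Z (i :: v) : ℝ) + 1)⌋₊ < Z (i :: v) then
        ⌊x * ((Z (i :: v) : ℝ) + 1)⌋₊ :: i :: v else v) ∂unif := by
      refine lintegral_congr fun x => ?_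
      rw [step]
    rw [h2, h1, Finset.sum_range_succ, if_neg (lt_irrefl _), add_comm (F v)]
    congr 2
    refine Finset.sum_congr rfl fun m hm => ?_
    rw [Finset.mem_range] at hm
    rw [if_pos hm]

end Pool.Agent.W930.FG
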